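import Pool.Agent.R15.OC.Coset

/-!
# Relative free side tests, towers and asphericity

The 2-complex with one vertex, the 1-cells `x : X`, the 2-cells `r ∈ Q` and the attaching words
`att r : List (X × Bool)` (`(x, true)` is the letter `x`, `(x, false)` the letter `x⁻¹`); its
fundamental group is `Grp att Q`.

Definitions (`Pool.Agent.R15.OC`):

* `occ ρ a l`: the 1-cells `(x, b)` (from `b` to `b ρ(x)`) of the covering belonging to `ρ` through
  which the path of the word `l` passes which starts at `a`; `chain ρ a l`: its cellular 1-chain;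
* `bd ρ att z`: the cellular boundary of the 2-chain `z` of the covering belonging to `ρ`;
* `Asph att Q`: the boundary operator of the universal covering of the complex with the 2-cells `Q`
  is injective (the second homotopy group vanishes);
* `FreeSidesRel ρ att Y Q₁`: every nonempty finite set of 2-cells `(r, a)`, `r ∈ Q₁`, of the
  covering has a 1-cell `(x, b)`, `x ∉ Y`, through which one of the 2-cells passes exactly once and
  the others do not pass;
* `StageA att hX hR α`: there is a homomorphism `ρ` to some group which kills the relators of the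
  stages `≤ α` and satisfies `FreeSidesRel` for the 2-cells of the stage `α` relative to the
  1-cells of the stages `< α`;
* `OrderTest ρ att Y Q₁`: the ordered test (weights and extremal corners) relative to `Y`;
* `Peel f g hV hE α`: every nonempty finite set of edges `e` of the stage `α` has a vertex of the
  stage `α` which occurs exactly once among the vertices `f e`, `g e`;
* from the starting library `Pool.Agent.TH625.LOG`: `LOG` (labelled oriented graph), `LOG.Conn`
  (connected), `LOG.ContractibleWith v₀` (the complex with one additional 2-cell attached along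
  `v₀` is contractible); `latt L` are the attaching words `ini lab ter⁻¹ lab⁻¹`.
-/

set_option autoImplicit false

namespace Pool.Agent.Results.MP_6de9fc_gt.AsphericalTowers

open Pool.Agent.TH625.LOG Pool.Agent.R15.OC

/-- (1) The relative theorem: `K` is a 2-complex with one vertex, `K₀` the subcomplex with the
1-cells `Y` and the 2-cells `Q₀`, and the other 2-cells `Q₁` satisfy the relative free side
condition over some quotient `A` of `π₁(K)`.  Then `π₁(K₀) → π₁(K)` is injective, and `K` is
aspherical if `K₀` is.
(2) Towers: the cells of `K` are distributed over the stages `α : ι` (`ι` well ordered) such that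
the 2-cells of a stage pass only through 1-cells of this stage and of earlier stages, and every
stage satisfies the relative free side condition over some group.  Then all subcomplexes of `K`
are aspherical and their parts up to the stage `α` are `π₁`-injective.
(3) The ordered test implies the free side condition.
(4) For labelled oriented graphs the peeling condition implies the condition for one stage, over
the infinite cyclic covering.
(5) A labelled oriented tree with a tower: the complex lies in a contractible one and all its
subcomplexes are aspherical. -/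
theorem result :
    (∀ (X R A : Type) [Group A] (att : R → List (X × Bool)) (Y : Set X) (Q₀ Q₁ : Set R)
      (ρ : FreeGroup X →* A), (∀ r ∈ Q₀, ∀ p ∈ att r, p.1 ∈ Y) →
      (∀ r ∈ Q₀ ∪ Q₁, ρ (FreeGroup.mk (att r)) = 1) → FreeSidesRel ρ att Y Q₁ →
      (∀ v ∈ Subgroup.closure (FreeGroup.of '' Y),
        v ∈ Subgroup.normalClosure ((fun r => FreeGroup.mk (att r)) '' (Q₀ ∪ Q₁)) →
        v ∈ Subgroup.normalClosure ((fun r => FreeGroup.mk (att r)) '' Q₀)) ∧
      (Asph att Q₀ → Asph att (Q₀ ∪ Q₁))) ∧
    (∀ (X R ι : Type) [LinearOrder ι] [WellFoundedLT ι] (att : R → List (X × Bool))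
      (hX : X → ι) (hR : R → ι), (∀ r, ∀ p ∈ att r, hX p.1 ≤ hR r) →
      (∀ α, StageA att hX hR α) →
      (∀ Q : Set R, Asph att Q) ∧
      (∀ (Q : Set R) (α : ι) (v : FreeGroup X),
        v ∈ Subgroup.closure (FreeGroup.of '' {x | hX x ≤ α}) →
        v ∈ Subgroup.normalClosure ((fun r => FreeGroup.mk (att r)) '' Q) →
        v ∈ Subgroup.normalClosure ((fun r => FreeGroup.mk (att r)) '' (Q ∩ {r | hR r ≤ α})))) ∧
    (∀ (X R A : Type) [Group A] (ρ : FreeGroup X →* A) (att : R → List (X × Bool))
      (Y : Set X) (Q₁ : Set R), OrderTest ρ att Y Q₁ → FreeSidesRel ρ att Y Q₁) ∧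
    (∀ (V E ι : Type) [LinearOrder ι] (L : LOG V E) (hV : V → ι) (hE : E → ι) (α : ι),
      Peel L.lab L.ter hV hE α ∨ Peel L.lab L.ini hV hE α →
      (∀ e, ht (FreeGroup.mk (latt L e)) = 1) ∧
      FreeSidesRel (ht : FreeGroup V →* Multiplicative ℤ) (latt L) {v | hV v < α}
        {e | hE e = α} ∧ StageA (latt L) hV hE α) ∧
    (∀ (V E ι : Type) [Fintype V] [DecidableEq V] [Fintype E] [LinearOrder ι] [WellFoundedLT ι]
      (L : LOG V E) (hV : V → ι) (hE : E → ι),
      (∀ e, hV (L.ini e) ≤ hE e ∧ hV (L.lab e) ≤ hE e ∧ hV (L.ter e) ≤ hE e) →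
      (∀ α, StageA (latt L) hV hE α) → L.Conn → Fintype.card V = Fintype.card E + 1 →
      (∀ v₀ : V, L.ContractibleWith v₀) ∧ ∀ Q : Set E, Asph (latt L) Q) := by
  refine ⟨fun X R A _ att Y Q₀ Q₁ ρ hQ₀ hρ hfree =>
      ⟨fun v hv hv' => step_inj att Y Q₀ Q₁ hQ₀ ρ hρ hfree v hv hv',
        fun h₀ => rel_asph att Y Q₀ Q₁ hQ₀ ρ hρ hfree h₀⟩,
    fun X R ι _ _ att hX hR hle hst => ⟨fun Q => tower_asph att hX hR hle hst Q,
      fun Q α v hv hv' => towerA_frei att hX hR hle hst Q α v hv hv'⟩,
    fun X R A _ ρ att Y Q₁ h => h.freeSides, ?_, ?_⟩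
  · intro V E ι _ L hV hE α h
    refine ⟨fun e => ht_rel L e, ?_, (stage_log L hV hE α h).stageA⟩
    rcases h with h | h
    · exact stage_top L hV hE α h
    · exact stage_bot L hV hE α h
  · intro V E ι _ _ _ _ _ L hV hE hle hst hc hcard
    refine ⟨contractibleWith L hc hcard, fun Q => tower_asph (latt L) hV hE ?_ hst Q⟩
    intro e p hp
    simp only [latt, List.mem_cons, List.not_mem_nil, or_false] at hp
    rcases hp with rfl | rfl | rfl | rfl
    · exact (hle e).1
    · exact (hle e).2.1
    · exact (hle e).2.2
    · exact (hle e).2.1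

end Pool.Agent.Results.MP_6de9fc_gt.AsphericalTowers
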