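import Pool.Agent.TH272.WH.Sub

/-!
# A local sparsity test for the asphericity of labelled oriented graphs

A labelled oriented graph (LOG) has the 2-complex of the presentation with generators the vertices and
one relator `i(e) λ(e) t(e)⁻¹ λ(e)⁻¹` for every edge `e`. If the graph is a tree, then the 2-complex
becomes a finite contractible 2-complex after one more 2-cell is attached along one generator (part (3):
its fundamental group is trivial, and it has as many 2-cells as 1-cells). So it and its subcomplexes are
subcomplexes of a finite contractible 2-complex, the situation of the question.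

(1) If no edge of a LOG is labelled by one of its end points or is a loop, and every set `S` of at most
seven edges involves (as end points or labels) at least `2|S|` vertices, then all subcomplexes are
diagrammatically reducible: there are no reduced spherical diagrams. In particular they are aspherical
(Sieradski, Gersten). The condition is local, the graph may be infinite.

(2) For a fixed tree with `n` vertices and degrees at most `Δ`, all but the proportion `10^18 Δ^6 / n` of
its `(n-2)^(n-1)` labellings are such that the condition of (1) holds, and for all orientations all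
subcomplexes are diagrammatically reducible.

The proofs are in the starting helper files `Pool.Agent.H891R2.RL` and `Pool.Agent.TH272.WH`.
-/

set_option autoImplicit false

namespace Pool.Agent.Results.MP_6de9fc_gt.LocalSparsity

open Pool.Agent.H891R2.RL Pool.Agent.TH272.WH

/-- **The local sparsity test.** -/
theorem result :
    (∀ (V E : Type) [DecidableEq V] (L : LOG V E), L.Compressed →
      (∀ S : Finset E, S.card ≤ 7 → 2 * S.card ≤ (S.biUnion fun e => {L.ini e, L.ter e, L.lab e}).card) →
      ∀ S : Set E, DR (fun e : S => L.rel e)) ∧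
    (∀ (n Δ : ℕ), 3 ≤ n → ∀ T : SimpleGraph (Fin n), T.IsTree → (∀ v, (T.neighborSet v).ncard ≤ Δ) →
      {lab : T.edgeSet → Fin n | ∀ e, lab e ∉ e.1}.ncard = (n - 2) ^ (n - 1) ∧
      ({lab : T.edgeSet → Fin n | (∀ e, lab e ∉ e.1) ∧
        ∃ (ini ter : T.edgeSet → Fin n) (S : Set T.edgeSet), (∀ e, s(ini e, ter e) = e.1) ∧
          ¬ DR (fun e : S => (⟨ini, ter, lab⟩ : LOG (Fin n) T.edgeSet).rel e)}.ncard : ℝ) ≤
        10 ^ 18 * (Δ : ℝ) ^ 6 / n * (((n - 2) ^ (n - 1) : ℕ) : ℝ)) ∧
    (∀ (n : ℕ) (x : LabelledTree n) (o : Orientation x) (v : Fin n),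
      ∀ g : PresentedGroup (Set.range (fun e => word (o.log.rel e)) ∪ {FreeGroup.of v}), g = 1) := by
  classical
  refine ⟨?_, ?_, fun n x o v => triv x o v⟩
  · intro V E _ L hC hS S
    have h : L.Sparse 7 := fun T hT => hS T hT
    exact dr_sub L.rel (fun e : S => (e : E)) Subtype.val_injective (sparse_DR L hC h)
  · intro n Δ hn T hT hΔ
    refine ⟨card_lab T hT, ?_⟩
    obtain ⟨ini, ter, he⟩ := exists_ori T
    refine le_trans ?_ (nonsparse Δ hn T hT hΔ ini ter he)
    rw [Nat.cast_le]
    refine Set.ncard_le_ncard ?_ (Set.toFinite _)
    rintro lab ⟨hlab, ini', ter', S, he', hS⟩ hsp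
    have hsp' : (⟨ini', ter', lab⟩ : LOG (Fin n) T.edgeSet).Sparse 7 :=
      sparse_congr ini ter ini' ter' lab 7 (fun e => by rw [he e, he' e]) hsp
    have hC : (⟨ini', ter', lab⟩ : LOG (Fin n) T.edgeSet).Compressed := by
      intro e
      have h1 := he' e
      have h2 := hlab e
      have h3 := e.2
      rw [← h1] at h2 h3
      rw [Sym2.mem_iff, not_or] at h2
      exact ⟨((SimpleGraph.mem_edgeSet T).1 h3).ne, h2.1, h2.2⟩
    exact hS (dr_sub (⟨ini', ter', lab⟩ : LOG (Fin n) T.edgeSet).rel (fun e : S => (e : T.edgeSet))
      Subtype.val_injective (sparse_DR _ hC hsp'))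

end Pool.Agent.Results.MP_6de9fc_gt.LocalSparsity
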