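import Pool.Agent.TH22.LT.M10
import Pool.Agent.TH272.WH.Sub

/-!
# Almost all reduced labelled oriented trees have aspherical complexes

A labelled oriented tree `L` (LOT) with `n` vertices is a tree with vertices `0, …, n-1`, whose
`n - 1` edges are numbered, oriented and labelled by vertices. Its 2-complex `K(L)` is the complex of
the presentation with the vertices as generators and the relators
`i(e) λ(e) t(e)⁻¹ λ(e)⁻¹`. If one more 2-cell is attached along one generator, the result is a finite
contractible 2-complex (`n` 1-cells, `n` 2-cells, trivial fundamental group, part (1)). So the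
subcomplexes of `K(L)` are subcomplexes of a finite contractible 2-complex.

`L` is reduced if

* no edge is labelled by one of its end points (compressed),
* no two edges with the same initial or the same terminal vertex have the same label (interior
  reduced),
* every leaf occurs as a label (boundary reduced).

A LOT which is not reduced can be replaced by a smaller one with a homotopy equivalent complex, hence
the reduced ones are the ones to be considered. They are very rare among all LOTs: about `n / e`
vertices of a random tree are leaves, and all of them have to occur as labels. So a statement about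
almost all labelled trees (`AlmostAllTrees`) says nothing about reduced ones. It is shown here that

(2) for all reduced LOTs with `n` vertices but the proportion `10^36 / n`, all subcomplexes of `K(L)`
are diagrammatically reducible, hence aspherical;

(3) the same for the reduced labellings of one fixed oriented tree, with the exceptional proportion
`10^23 (∑ v, deg(v)^7) / n^2`: it tends to zero for all sequences of trees with bounded degrees, for
example for paths.
-/

set_option autoImplicit false

namespace Pool.Agent.Results.MP_6de9fc_gt.ReducedOrientedTrees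

open Pool.Agent.H891R2.RL Pool.Agent.TH272.WH

/-- The edges of the labelled oriented graph `L` with `n` vertices and `n - 1` edges form a tree. -/
def IsLOT {n : ℕ} (L : LOG (Fin n) (Fin (n - 1))) : Prop :=
  (SimpleGraph.fromEdgeSet (Set.range fun e => s(L.ini e, L.ter e))).IsTree

/-- A labelled oriented graph is reduced: no loops and no edge is labelled by one of its end points;
two different edges with the same initial vertex or with the same terminal vertex have different
labels; a vertex which is an end point of exactly one edge is the label of some edge. -/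
def IsReduced {V E : Type} (L : LOG V E) : Prop :=
  (∀ e, L.ini e ≠ L.ter e ∧ L.lab e ≠ L.ini e ∧ L.lab e ≠ L.ter e) ∧
  (∀ e f, e ≠ f → (L.ini e = L.ini f ∨ L.ter e = L.ter f) → L.lab e ≠ L.lab f) ∧
  ∀ x, (∃! e, L.ini e = x ∨ L.ter e = x) → ∃ f, L.lab f = x

/-- Killing one generator gives the trivial group. -/
theorem trivial_of_kill {n : ℕ} (L : LOG (Fin n) (Fin (n - 1))) (hL : IsLOT L) (v : Fin n) :
    ∀ g : PresentedGroup (Set.range (fun e => word (L.rel e)) ∪ {FreeGroup.of v}), g = 1 := by
  set R : Set (FreeGroup (Fin n)) := Set.range (fun e => word (L.rel e)) ∪ {FreeGroup.of v} with hR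
  have h0 : (PresentedGroup.of v : PresentedGroup R) = 1 :=
    PresentedGroup.one_of_mem (Or.inr rfl)
  have hrel : ∀ e, (PresentedGroup.of (L.ini e) : PresentedGroup R) * PresentedGroup.of (L.lab e) *
      (PresentedGroup.of (L.ter e))⁻¹ * (PresentedGroup.of (L.lab e))⁻¹ = 1 := by
    intro e
    have h1 : PresentedGroup.mk R (word (L.rel e)) = 1 :=
      PresentedGroup.one_of_mem (Or.inl ⟨e, rfl⟩)
    rw [word_rel, map_mul, map_mul, map_mul, map_inv, map_inv] at h1
    exact h1
  set G : SimpleGraph (Fin n) := SimpleGraph.fromEdgeSet (Set.range fun e => s(L.ini e, L.ter e))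
    with hG
  have hadj : ∀ a b, G.Adj a b → (PresentedGroup.of a : PresentedGroup R) = 1 →
      (PresentedGroup.of b : PresentedGroup R) = 1 := by
    intro a b hab ha
    rw [hG, SimpleGraph.fromEdgeSet_adj] at hab
    obtain ⟨⟨e, he⟩, -⟩ := hab
    have hr := hrel e
    simp only at he
    rw [Sym2.eq_iff] at he
    rcases he with ⟨h1, h2⟩ | ⟨h1, h2⟩
    · rw [h1, h2, ha] at hr
      simpa using hr
    · rw [h1, h2, ha] at hr
      simpa using hr
  have hreach : ∀ a b, G.Reachable a b → (PresentedGroup.of a : PresentedGroup R) = 1 →
      (PresentedGroup.of b : PresentedGroup R) = 1 := by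
    intro a b hab
    obtain ⟨w⟩ := hab
    induction w with
    | nil => exact id
    | cons h _ ih => exact fun ha => ih (hadj _ _ h ha)
  have hall : ∀ a, (PresentedGroup.of a : PresentedGroup R) = 1 := fun a =>
    hreach v a (hL.connected.preconnected v a) h0
  have hid : MonoidHom.id (PresentedGroup R) = 1 := by
    apply PresentedGroup.ext
    intro a
    simp [hall a]
  exact fun g => DFunLike.congr_fun hid g

/-- A complex is diagrammatically reducible if and only if all its subcomplexes are. -/
theorem exists_sub_iff {X R : Type} (r : R → Fin 4 → X × Bool) :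
    (∃ S : Set R, ¬ DR (fun e : S => r e)) ↔ ¬ DR r := by
  constructor
  · rintro ⟨S, hS⟩ h
    exact hS (dr_sub r (fun e : S => (e : R)) Subtype.val_injective h)
  · intro h
    refine ⟨Set.univ, fun h2 => h ?_⟩
    exact dr_sub (fun e : (Set.univ : Set R) => r e) (fun e => ⟨e, trivial⟩)
      (fun a b hab => Subtype.mk.inj hab) h2

/-- **Almost all reduced labelled oriented trees are diagrammatically reducible**, with all their
subcomplexes: (1) attaching a 2-cell along one generator kills the fundamental group; (2) the
proportion of the exceptions among all reduced labelled oriented trees with `n` vertices is at most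
`10^36 / n`; (3) the proportion of the exceptions among the reduced labellings of one oriented tree
`T` is at most `10^23 (∑ v, deg(v)^7) / n^2`. -/
theorem result (n : ℕ) (hn : 3 ≤ n) :
    (∀ L : LOG (Fin n) (Fin (n - 1)), IsLOT L → ∀ (v : Fin n)
      (g : PresentedGroup (Set.range (fun e => word (L.rel e)) ∪ {FreeGroup.of v})), g = 1) ∧
    ({L : LOG (Fin n) (Fin (n - 1)) | IsLOT L ∧ IsReduced L ∧
        ∃ S : Set (Fin (n - 1)), ¬ DR (fun e : S => L.rel e)}.ncard : ℝ) ≤
      10 ^ 36 / n * ({L : LOG (Fin n) (Fin (n - 1)) | IsLOT L ∧ IsReduced L}.ncard : ℝ) ∧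
    ∀ T : SimpleGraph (Fin n), T.IsTree → ∀ ini ter : T.edgeSet → Fin n,
      (∀ e, s(ini e, ter e) = e.1) →
      ({lab : T.edgeSet → Fin n | IsReduced (⟨ini, ter, lab⟩ : LOG (Fin n) T.edgeSet) ∧
        ∃ S : Set T.edgeSet,
          ¬ DR (fun e : S => (⟨ini, ter, lab⟩ : LOG (Fin n) T.edgeSet).rel e)}.ncard : ℝ) ≤
      10 ^ 23 * (∑ v : Fin n, ((T.neighborSet v).ncard : ℝ) ^ 7) / (n : ℝ) ^ 2 *
        ({lab : T.edgeSet → Fin n |
          IsReduced (⟨ini, ter, lab⟩ : LOG (Fin n) T.edgeSet)}.ncard : ℝ) := by
  refine ⟨trivial_of_kill, ?_, ?_⟩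
  · have h := Pool.Agent.TH22.LT.all_reduced n hn
    have e : {L : LOG (Fin n) (Fin (n - 1)) | IsLOT L ∧ IsReduced L ∧
        ∃ S : Set (Fin (n - 1)), ¬ DR (fun e : S => L.rel e)} =
        {L : LOG (Fin n) (Fin (n - 1)) | (Pool.Agent.TH22.LT.gr (L.ini, L.ter)).IsTree ∧
          (Pool.Agent.TH22.LT.RedLOG L ∧ ¬ DR L.rel)} := by
      ext L
      rw [Set.mem_setOf_eq, Set.mem_setOf_eq, exists_sub_iff]
      rfl
    rw [e]
    exact h
  · intro T hT ini ter he
    have h := Pool.Agent.TH22.LT.fixed_reduced n hn T hT ini ter he
    have e : {lab : T.edgeSet → Fin n | IsReduced (⟨ini, ter, lab⟩ : LOG (Fin n) T.edgeSet) ∧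
        ∃ S : Set T.edgeSet,
          ¬ DR (fun e : S => (⟨ini, ter, lab⟩ : LOG (Fin n) T.edgeSet).rel e)} =
        {lab : T.edgeSet → Fin n |
          Pool.Agent.TH22.LT.RedLOG (⟨ini, ter, lab⟩ : LOG (Fin n) T.edgeSet) ∧
          ¬ DR (⟨ini, ter, lab⟩ : LOG (Fin n) T.edgeSet).rel} := by
      ext lab
      rw [Set.mem_setOf_eq, Set.mem_setOf_eq, exists_sub_iff]
      rfl
    rw [e]
    exact h

end Pool.Agent.Results.MP_6de9fc_gt.ReducedOrientedTrees
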