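import Pool.Agent.R655.LI.Test

/-!
# Test pairs for the asphericity of subcomplexes of finite contractible 2-complexes

Definitions (`Pool.Agent.R655.LI.Defs`, `.Asph`, `.Howie`, `.Test`):

* `Cx`: a 2-complex with one vertex, 1-cells `V`, 2-cells `R`, attaching words `r : R → FreeGroup V`;
  `L.Pi` its fundamental group; `L.Contractible`: `π₁(L) = 1` and the integral boundary operator
  `C₂ → C₁` is injective; `L.IsFin`: finitely many cells; `Sub K L`: `K` is a subcomplex of `L`, `s.map`
  the induced homomorphism `π₁(K) → π₁(L)`; `L.del e` is `L` without the open 2-cell `e`;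
* `fox K w : K.V → ℤ[π₁(K)]`: the Fox derivatives of the word `w` (the chain of the lifted path in the
  universal covering); `Asph K`: the boundary operator `C₂ → C₁` of the universal covering is
  injective, i.e. `π₂(K) = 0`;
* `PInd p G`: `G` is locally `p`-indicable: every nontrivial finitely generated subgroup has a
  nontrivial homomorphism to `ℤ/p` (to `ℤ` if `p = 0`: locally indicable);
* `OneCell L e`: `L` is contractible and `e` is attached along a 1-cell; `NN L e`: the commutator
  subgroup of `π₁(L - e)`; `Perf`: perfect; `OneGen N`: `N` is the normal closure of one nontrivial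
  element; `NoHom p N`: `N` has no nontrivial homomorphism to a locally `p`-indicable group;
* `TestPair P L e`: `L` is a finite contractible 2-complex, `e` is attached along a 1-cell, and
  `N = NN L e` is perfect, the normal closure of one nontrivial element, and `NoHom p N` for `p ∈ P`;
* `InBadTestPair P K`: `K` is a subcomplex of `L' - e`, `π₁(K) → π₁(L' - e)` is injective and `L' - e` is
  not aspherical, for some test pair `(L', e)`;
* `Whitehead`: all subcomplexes of finite contractible 2-complexes (with one vertex) are aspherical.
-/

set_option autoImplicit false

namespace Pool.Agent.Results.MP_6de9fc_gt.TestPairs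

open Pool.Agent.R655.LI

/-- Let `P` be a finite set of primes (and `0`).  Every non-aspherical subcomplex of a finite
contractible 2-complex is a `π₁`-injective subcomplex of a non-aspherical `L' - e` with a test pair
`(L', e)`.  Hence Q1 holds if and only if `L - e` is aspherical for all test pairs `(L, e)`. -/
theorem result (P : Finset ℕ) (hP : ∀ p ∈ P, p = 0 ∨ p.Prime) :
    (∀ (K L : Cx) (_ : Sub K L), L.Contractible → L.IsFin → ¬ Asph K → InBadTestPair P K) ∧
    (Whitehead ↔ ∀ (L : Cx) (e : L.R), TestPair P L e → Asph (L.del e)) :=
  ⟨test P hP, whitehead_iff P hP⟩

end Pool.Agent.Results.MP_6de9fc_gt.TestPairs
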